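import Pool.Agent.H75.ERG.Targets

/-! Row C_OMC of the board eg_modules (`MP_009700_an`): the oscillation of the extension. -/

set_option autoImplicit false

namespace Pool.Agent.H72.EG

open MeasureTheory Set Metric Filter Topology Pool.Agent.H93.BL
open Pool.Agent.H93.EN (av md rf chi gchi Bd Ml Nl Inv Agr sg VV Chart LS Phi)
open Pool.Agent.H93.EG (InvG Sm gN hN nrm)
open Pool.Agent.H75.ERG

theorem Phi_bd {ι : Type} (P : Polygon ι) (F : ℂ → ℂ → ℝ) (hF : InvG P F) (τ : Option ι)
    (y w : ℂ) : 0 ≤ Phi P F τ y w ∧ Phi P F τ y w ≤ 1 := by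
  cases τ with
  | none => exact hF.bd y w
  | some j =>
    show 0 ≤ (if 0 < sg P j y then F y w else F (P.aff j y) (P.refl j w)) ∧
      (if 0 < sg P j y then F y w else F (P.aff j y) (P.refl j w)) ≤ 1
    by_cases h : 0 < sg P j y
    · rw [if_pos h]
      exact hF.bd _ _
    · rw [if_neg h]
      exact hF.bd _ _

theorem omc (hCHT : Pool.Agent.H93.EN.T_CHT) : T_OMC := by
  intro ι P F hF x hx R τ hch δ hδ hδR w
  unfold om
  by_cases h : infDist x (P.Ωᶜ) ≤ δ
  · rw [if_pos h]
    have h1 : ‖∫ y in ball x δ, |Phi P F τ y w - F x w|‖ ≤ 1 * volume.real (ball x δ) := by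
      refine norm_setIntegral_le_of_norm_le_const measure_ball_lt_top ?_
      intro y _
      rw [Real.norm_eq_abs, abs_abs, abs_le]
      have h2 := Phi_bd P F hF τ y w
      have h3 := hF.bd x w
      constructor <;> linarith [h2.1, h2.2, h3.1, h3.2]
    have h2 : volume.real (ball x δ) = δ ^ 2 * Real.pi := by
      rw [Measure.real, Complex.volume_ball, ENNReal.toReal_mul, ENNReal.toReal_pow,
        ENNReal.toReal_ofReal hδ.le]
      rfl
    rw [one_mul, h2] at h1
    have h3 : ∫ y in ball x δ, |Phi P F τ y w - F x w| ≤ δ ^ 2 * Real.pi :=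
      (le_abs_self _).trans h1
    have hδ2 : 0 < δ ^ 2 := by positivity
    rw [inv_mul_le_iff₀ hδ2]
    refine h3.trans ?_
    exact mul_le_mul_of_nonneg_left Real.pi_le_four hδ2.le
  · rw [if_neg h]
    push Not at h
    refine le_of_eq (congrArg (fun t => (δ ^ 2)⁻¹ * t) ?_)
    refine setIntegral_congr_fun measurableSet_ball ?_
    intro y hy
    have hyR : y ∈ ball x R := ball_subset_ball hδR hy
    have hseg : segment ℝ x y ⊆ P.Ω := by
      intro z hz
      by_contra hz'
      have h1 : infDist x (P.Ωᶜ) ≤ dist x z := infDist_le_dist_of_mem hz'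
      have h2 : segment ℝ x y ⊆ ball x δ :=
        (convex_ball x δ).segment_subset (mem_ball_self hδ) hy
      have h3 : dist x z < δ := by
        have := h2 hz
        rwa [mem_ball, dist_comm] at this
      linarith
    have h4 := ((hCHT ι P).2.2.2.1 x y R τ hx hch hyR).mp hseg
    have h5 : Phi P F τ y w = F y w := by
      cases τ with
      | none => rfl
      | some j =>
        unfold Phi
        exact if_pos (h4 j rfl)
    show |Phi P F τ y w - F x w| = |F y w - F x w|
    rw [h5]

end Pool.Agent.H72.EG
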